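import Pool.Agent.H554R2.Lin.Defs

/-! TASK V8 of project Lin (helper554); proof by helper439. -/

set_option autoImplicit false

open Finset

namespace Pool.Agent.H554R2.Lin

open Pool.Agent.H554R2.Sem

/-- the bits as elements of `ZMod 2` -/
def v8_bz {n : ℕ} (x : Pt n) (v : Fin n) : ZMod 2 := if x v then 1 else 0

theorem v8_bz_inj {n : ℕ} {x y : Pt n} {v : Fin n} (h : v8_bz x v = v8_bz y v) : x v = y v := by
  unfold v8_bz at h
  cases hx : x v <;> cases hy : y v <;> simp_all

/-- sums over groups -/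
def v8_ph {n : ℕ} (gr : Fin n → ℕ) (A : Finset (Fin n)) (M : Finset ℕ) (x : Pt n) : M → ZMod 2 :=
  fun g => ∑ v ∈ A.filter (fun v => gr v = g.1), v8_bz x v

theorem v8_fibre {n : ℕ} (gr : Fin n → ℕ) (A : Finset (Fin n)) (M : Finset ℕ)
    (hM : M ⊆ A.image gr) (x0 : Pt n) (X : Finset (Pt n))
    (hX : ∀ x ∈ X, ∀ v, v ∉ A → x v = x0 v) :
    X.card ≤ (X.image (v8_ph gr A M)).card * 2 ^ (A.card - M.card) := by
  classical
  have h1 : ∀ g : M, ∃ v ∈ A, gr v = g.1 := fun g => by
    obtain ⟨v, hv, h⟩ := mem_image.1 (hM g.2)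
    exact ⟨v, hv, h⟩
  choose r hrA hr using h1
  have hinj : Function.Injective r := fun g g' h => Subtype.ext (by rw [← hr g, ← hr g', h])
  set C := A \ univ.image r with hC
  have hsub : univ.image r ⊆ A := by
    intro v hv
    obtain ⟨g, -, rfl⟩ := mem_image.1 hv
    exact hrA g
  have hCc : C.card = A.card - M.card := by
    rw [hC, card_sdiff_of_subset hsub, card_image_of_injective _ hinj, card_univ,
      Fintype.card_coe]
  rw [← hCc, ← card_powerset, ← card_product]
  refine card_le_card_of_injOn (fun x => (v8_ph gr A M x, C.filter (fun v => x v = true))) ?_ ?_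
  · intro x hx
    exact mem_coe.2 (mem_product.2 ⟨mem_image_of_mem _ (mem_coe.1 hx),
      mem_powerset.2 (filter_subset _ _)⟩)
  · intro x hx y hy h
    simp only [Prod.mk.injEq] at h
    obtain ⟨h1, h2⟩ := h
    have hCe : ∀ v ∈ C, x v = y v := by
      intro v hv
      have h3 : v ∈ C.filter (fun v => x v = true) ↔ v ∈ C.filter (fun v => y v = true) := by
        rw [h2]
      simp only [mem_filter, hv, true_and] at h3
      exact Bool.eq_iff_iff.2 h3
    funext v
    by_cases hvA : v ∈ A
    · by_cases hvC : v ∈ C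
      · exact hCe v hvC
      · have h3 : v ∈ univ.image r := by
          by_contra h
          exact hvC (mem_sdiff.2 ⟨hvA, h⟩)
        obtain ⟨g, -, rfl⟩ := mem_image.1 h3
        have e := congrFun h1 g
        unfold v8_ph at e
        have hmem : r g ∈ A.filter (fun v => gr v = g.1) := mem_filter.2 ⟨hrA g, hr g⟩
        rw [← add_sum_erase _ _ hmem, ← add_sum_erase _ _ hmem] at e
        have e2 : ∑ v ∈ (A.filter (fun v => gr v = g.1)).erase (r g), v8_bz x v =
            ∑ v ∈ (A.filter (fun v => gr v = g.1)).erase (r g), v8_bz y v := by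
          refine sum_congr rfl fun v hv => ?_
          have hvC : v ∈ C := by
            rw [mem_erase, mem_filter] at hv
            refine mem_sdiff.2 ⟨hv.2.1, fun h => ?_⟩
            obtain ⟨g', -, rfl⟩ := mem_image.1 h
            have : g' = g := Subtype.ext (by rw [← hr g']; exact hv.2.2)
            exact hv.1 (by rw [this])
          unfold v8_bz
          rw [hCe v hvC]
        rw [e2] at e
        exact v8_bz_inj (add_right_cancel e)
    · rw [hX x (mem_coe.1 hx) v hvA, hX y (mem_coe.1 hy) v hvA]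

theorem v8_card {M : Type} [Fintype M] [DecidableEq M] (U : Finset (M → ZMod 2))
    (u0 : M → ZMod 2) (P : Submodule (ZMod 2) (M → ZMod 2)) (h : ∀ u ∈ U, u - u0 ∈ P) :
    U.card ≤ 2 ^ Module.finrank (ZMod 2) P := by
  classical
  have h1 : Fintype.card P = 2 ^ Module.finrank (ZMod 2) P := by
    rw [Module.card_eq_pow_finrank (K := ZMod 2) (V := P), ZMod.card]
  rw [← h1, ← Fintype.card_coe U]
  refine Fintype.card_le_of_injective (fun u : U => (⟨u.1 - u0, h u.1 u.2⟩ : P)) ?_
  intro u u' huu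
  have h2 := congrArg Subtype.val huu
  exact Subtype.ext (sub_left_injective h2)

theorem v8_orth {M : Type} [Fintype M] [DecidableEq M] (U W : Finset (M → ZMod 2))
    (hU : U.Nonempty) (hW : W.Nonempty)
    (h : ∀ u ∈ U, ∀ u' ∈ U, ∀ w ∈ W, ∀ w' ∈ W, ∑ g, (u g - u' g) * (w g - w' g) = 0) :
    U.card * W.card ≤ 2 ^ Fintype.card M := by
  classical
  obtain ⟨u0, hu0⟩ := hU
  obtain ⟨w0, hw0⟩ := hW
  set P : Submodule (ZMod 2) (M → ZMod 2) :=
    Submodule.span (ZMod 2) ((fun u => u - u0) '' (U : Set (M → ZMod 2))) with hP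
  set P' : Submodule (ZMod 2) (M → ZMod 2) :=
    Submodule.span (ZMod 2) ((fun w => w - w0) '' (W : Set (M → ZMod 2))) with hP'
  have hort : P.map (dotProductEquiv (ZMod 2) M).toLinearMap ≤ P'.dualAnnihilator := by
    rw [hP, Submodule.map_span_le]
    rintro _ ⟨u, hu, rfl⟩
    rw [Submodule.mem_dualAnnihilator]
    intro v hv
    rw [hP'] at hv
    induction hv using Submodule.span_induction with
    | mem v hv =>
      obtain ⟨w, hw, rfl⟩ := hv
      exact h u (mem_coe.1 hu) u0 hu0 w (mem_coe.1 hw) w0 hw0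
    | zero => rw [map_zero]
    | add v w _ _ h1 h2 => rw [map_add, h1, h2, add_zero]
    | smul c v _ h1 => rw [map_smul, h1, smul_zero]
  have hfr : Module.finrank (ZMod 2) P + Module.finrank (ZMod 2) P' ≤ Fintype.card M := by
    have h1 : Module.finrank (ZMod 2) (P.map (dotProductEquiv (ZMod 2) M).toLinearMap) =
        Module.finrank (ZMod 2) P := LinearEquiv.finrank_map_eq _ _
    have h2 := Submodule.finrank_mono hort
    have h3 := Subspace.finrank_add_finrank_dualAnnihilator_eq P'
    rw [Module.finrank_fintype_fun_eq_card] at h3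
    omega
  have h1 := v8_card U u0 P (fun u hu => Submodule.subset_span ⟨u, hu, rfl⟩)
  have h2 := v8_card W w0 P' (fun u hu => Submodule.subset_span ⟨u, hu, rfl⟩)
  calc U.card * W.card ≤ 2 ^ Module.finrank (ZMod 2) P * 2 ^ Module.finrank (ZMod 2) P' :=
        Nat.mul_le_mul h1 h2
    _ = 2 ^ (Module.finrank (ZMod 2) P + Module.finrank (ZMod 2) P') := (pow_add _ _ _).symm
    _ ≤ 2 ^ Fintype.card M := Nat.pow_le_pow_right (by norm_num) hfr

/-- the form as a sum in `ZMod 2` -/
theorem v8_qf {n : ℕ} (σ : Equiv.Perm (Fin n)) (w : ℕ) (x : Pt n) (β : Bool)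
    (h : qf σ w x = β) :
    ∑ p : Fin n × Fin n, (if σ p.1 < σ p.2 ∧ (σ p.1 : ℕ) / w = (σ p.2 : ℕ) / w then (1 : ZMod 2)
      else 0) * (v8_bz x p.1 * v8_bz x p.2) = if β then 1 else 0 := by
  have h1 : ∑ p : Fin n × Fin n, (if σ p.1 < σ p.2 ∧ (σ p.1 : ℕ) / w = (σ p.2 : ℕ) / w then
      (1 : ZMod 2) else 0) * (v8_bz x p.1 * v8_bz x p.2) =
      ((univ.filter (fun p : Fin n × Fin n => σ p.1 < σ p.2 ∧
        (σ p.1 : ℕ) / w = (σ p.2 : ℕ) / w ∧ x p.1 = true ∧ x p.2 = true)).card : ZMod 2) := by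
    rw [card_filter]
    push_cast
    refine sum_congr rfl fun p _ => ?_
    unfold v8_bz
    by_cases g1 : σ p.1 < σ p.2 <;> by_cases g2 : (σ p.1 : ℕ) / w = (σ p.2 : ℕ) / w <;>
      by_cases g3 : x p.1 = true <;> by_cases g4 : x p.2 = true <;> simp [g1, g2, g3, g4]
  rw [h1, ← h]
  unfold qf
  by_cases h2 : Odd (univ.filter (fun p : Fin n × Fin n => σ p.1 < σ p.2 ∧
        (σ p.1 : ℕ) / w = (σ p.2 : ℕ) / w ∧ x p.1 = true ∧ x p.2 = true)).card
  · rw [ZMod.natCast_eq_one_iff_odd.2 h2]
    simp [h2]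
  · rw [ZMod.natCast_eq_zero_iff_even.2 (Nat.not_odd_iff_even.1 h2)]
    simp [h2]

/-- L8: rectangles on which a form is constant -/
theorem rect_form {n a b g w : ℕ} (K : Finset (Pt n)) (R : Rect K a b g)
    (σ : Equiv.Perm (Fin n)) (β : Bool) (hK : ∀ x ∈ K, qf σ w x = β) :
    mixed σ w R.A R.B ≤ 2 * g := by
  classical
  set gr : Fin n → ℕ := fun v => (σ v : ℕ) / w with hgr
  set M : Finset ℕ := R.A.image gr ∩ R.B.image gr with hM
  have hmix : mixed σ w R.A R.B = M.card := rfl
  -- the merged points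
  have hz : ∀ x ∈ R.X, ∀ y ∈ R.Y, ∀ v, v8_bz (merge R.A x y) v =
      v8_bz x v + v8_bz y v - v8_bz R.x0 v := by
    intro x hx y hy v
    unfold v8_bz merge
    by_cases hv : v ∈ R.A
    · have hvB : v ∉ R.B := fun h => disjoint_left.1 R.disj hv h
      rw [if_pos hv, R.hY y hy v hvB]
      ring
    · rw [if_neg hv, R.hX x hx v hv]
      ring
  -- the bilinear identity
  have hbil : ∀ x ∈ R.X, ∀ x' ∈ R.X, ∀ y ∈ R.Y, ∀ y' ∈ R.Y,
      ∑ k : M, (v8_ph gr R.A M x k - v8_ph gr R.A M x' k) *
        (v8_ph gr R.B M y k - v8_ph gr R.B M y' k) = 0 := by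
    intro x hx x' hx' y hy y' hy'
    set dx : Fin n → ZMod 2 := fun v => v8_bz x v - v8_bz x' v with hdx
    set dy : Fin n → ZMod 2 := fun v => v8_bz y v - v8_bz y' v with hdy
    have hdx0 : ∀ v, v ∉ R.A → dx v = 0 := by
      intro v hv
      simp only [hdx, v8_bz]
      rw [R.hX x hx v hv, R.hX x' hx' v hv, sub_self]
    have hdy0 : ∀ v, v ∉ R.B → dy v = 0 := by
      intro v hv
      simp only [hdy, v8_bz]
      rw [R.hY y hy v hv, R.hY y' hy' v hv, sub_self]
    set c : Fin n × Fin n → ZMod 2 := fun p =>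
      if σ p.1 < σ p.2 ∧ (σ p.1 : ℕ) / w = (σ p.2 : ℕ) / w then (1 : ZMod 2) else 0 with hc
    have q1 := v8_qf σ w _ β (hK _ (R.mem x hx y hy))
    have q2 := v8_qf σ w _ β (hK _ (R.mem x' hx' y hy))
    have q3 := v8_qf σ w _ β (hK _ (R.mem x hx y' hy'))
    have q4 := v8_qf σ w _ β (hK _ (R.mem x' hx' y' hy'))
    have e1 : ∑ p : Fin n × Fin n, c p * (dx p.1 * dy p.2 + dy p.1 * dx p.2) = 0 := by
      have e2 : ∑ p : Fin n × Fin n, c p * (dx p.1 * dy p.2 + dy p.1 * dx p.2) =
          (∑ p : Fin n × Fin n, c p * (v8_bz (merge R.A x y) p.1 * v8_bz (merge R.A x y) p.2) -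
          ∑ p : Fin n × Fin n, c p * (v8_bz (merge R.A x' y) p.1 * v8_bz (merge R.A x' y) p.2)) -
          (∑ p : Fin n × Fin n, c p * (v8_bz (merge R.A x y') p.1 * v8_bz (merge R.A x y') p.2) -
          ∑ p : Fin n × Fin n, c p *
            (v8_bz (merge R.A x' y') p.1 * v8_bz (merge R.A x' y') p.2)) := by
        rw [← sum_sub_distrib, ← sum_sub_distrib, ← sum_sub_distrib]
        refine sum_congr rfl fun p _ => ?_
        rw [hz x hx y hy, hz x hx y hy, hz x' hx' y hy, hz x' hx' y hy, hz x hx y' hy',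
          hz x hx y' hy', hz x' hx' y' hy', hz x' hx' y' hy']
        simp only [hdx, hdy]
        ring
      rw [e2, q1, q2, q3, q4]
      simp
    have e3 : ∑ p : Fin n × Fin n, c p * (dx p.1 * dy p.2 + dy p.1 * dx p.2) =
        ∑ p : Fin n × Fin n, (if gr p.1 = gr p.2 then dx p.1 * dy p.2 else 0) := by
      have e4 : ∑ p : Fin n × Fin n, c p * (dy p.1 * dx p.2) =
          ∑ p : Fin n × Fin n, c p.swap * (dx p.1 * dy p.2) := by
        refine Fintype.sum_equiv (Equiv.prodComm _ _) _ _ (fun p => ?_)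
        simp only [Equiv.prodComm_apply, Prod.swap_swap, Prod.fst_swap, Prod.snd_swap]
        ring
      simp only [mul_add]
      rw [sum_add_distrib, e4, ← sum_add_distrib]
      refine sum_congr rfl fun p _ => ?_
      by_cases hp : p.1 = p.2
      · have e5 : dx p.1 * dy p.2 = 0 := by
          by_cases hA : p.1 ∈ R.A
          · have : p.2 ∉ R.B := by
              rw [← hp]
              exact fun h => disjoint_left.1 R.disj hA h
            rw [hdy0 _ this, mul_zero]
          · rw [hdx0 _ hA, zero_mul]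
        rw [e5]
        simp
      · have hσ : σ p.1 ≠ σ p.2 := fun h => hp (σ.injective h)
        by_cases hg : gr p.1 = gr p.2
        · rw [if_pos hg]
          have hg' : (σ p.1 : ℕ) / w = (σ p.2 : ℕ) / w := hg
          rcases lt_or_gt_of_ne hσ with h | h
          · have h1 : c p = 1 := by simp only [hc]; rw [if_pos ⟨h, hg'⟩]
            have h2 : c p.swap = 0 := by
              simp only [hc, Prod.fst_swap, Prod.snd_swap]
              rw [if_neg (fun hh => absurd hh.1 (not_lt.2 h.le))]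
            rw [h1, h2]; ring
          · have h1 : c p = 0 := by
              simp only [hc]; rw [if_neg (fun hh => absurd hh.1 (not_lt.2 (le_of_lt h)))]
            have h2 : c p.swap = 1 := by
              simp only [hc, Prod.fst_swap, Prod.snd_swap]
              rw [if_pos ⟨h, hg'.symm⟩]
            rw [h1, h2]; ring
        · rw [if_neg hg]
          have hg' : ¬ (σ p.1 : ℕ) / w = (σ p.2 : ℕ) / w := hg
          have h1 : c p = 0 := by simp only [hc]; rw [if_neg (fun hh => hg' hh.2)]
          have h2 : c p.swap = 0 := by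
            simp only [hc, Prod.fst_swap, Prod.snd_swap]
            rw [if_neg (fun hh => hg' hh.2.symm)]
          rw [h1, h2]; ring
    have e6 : ∑ p : Fin n × Fin n, (if gr p.1 = gr p.2 then dx p.1 * dy p.2 else 0) =
        ∑ v ∈ R.A, ∑ u ∈ R.B, (if gr v = gr u then dx v * dy u else 0) := by
      rw [Fintype.sum_prod_type]
      symm
      refine sum_subset_zero_on_sdiff (subset_univ _) (fun v hv => ?_) (fun v _ => ?_)
      · have hv' := (mem_sdiff.1 hv).2
        refine sum_eq_zero fun u _ => ?_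
        rw [hdx0 v hv', zero_mul, ite_self]
      · refine sum_subset_zero_on_sdiff (subset_univ _) (fun u hu => ?_) (fun u _ => rfl)
        have hu' := (mem_sdiff.1 hu).2
        rw [hdy0 u hu', mul_zero, ite_self]
    have e7 : ∑ k : M, (v8_ph gr R.A M x k - v8_ph gr R.A M x' k) *
        (v8_ph gr R.B M y k - v8_ph gr R.B M y' k) =
        ∑ v ∈ R.A, ∑ u ∈ R.B, (if gr v = gr u then dx v * dy u else 0) := by
      have e8 : ∀ k : M, (v8_ph gr R.A M x k - v8_ph gr R.A M x' k) *
          (v8_ph gr R.B M y k - v8_ph gr R.B M y' k) =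
          ∑ v ∈ R.A, ∑ u ∈ R.B, (if gr v = k.1 then (if gr u = k.1 then dx v * dy u else 0)
            else 0) := by
        intro k
        unfold v8_ph
        rw [← sum_sub_distrib, ← sum_sub_distrib, sum_filter, sum_filter, sum_mul_sum]
        refine sum_congr rfl fun v _ => sum_congr rfl fun u _ => ?_
        by_cases h1 : gr v = k.1 <;> by_cases h2 : gr u = k.1 <;> simp [h1, h2, hdx, hdy]
      rw [sum_congr rfl (fun k _ => e8 k), sum_comm]
      refine sum_congr rfl fun v hv => ?_
      rw [sum_comm]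
      refine sum_congr rfl fun u hu => ?_
      by_cases h1 : gr v = gr u
      · rw [if_pos h1]
        have hmem : gr v ∈ M := mem_inter.2 ⟨mem_image_of_mem _ hv, by
          rw [h1]; exact mem_image_of_mem _ hu⟩
        rw [Finset.sum_eq_single (⟨gr v, hmem⟩ : M)]
        · simp [h1]
        · intro k _ hk
          have : gr v ≠ k.1 := fun h => hk (Subtype.ext h.symm)
          rw [if_neg this]
        · intro h
          exact absurd (mem_univ _) h
      · rw [if_neg h1]
        refine sum_eq_zero fun k _ => ?_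
        by_cases h2 : gr v = k.1
        · rw [if_pos h2, if_neg (fun h3 => h1 (h2.trans h3.symm))]
        · rw [if_neg h2]
    rw [e7, ← e6, ← e3, e1]
  -- the sets are not empty
  have hXne : R.X.Nonempty := by
    rw [Finset.nonempty_iff_ne_empty]
    intro h
    have := R.nX
    rw [h, card_empty, mul_zero] at this
    exact absurd this (not_le.2 (pow_pos (by norm_num) _))
  have hYne : R.Y.Nonempty := by
    rw [Finset.nonempty_iff_ne_empty]
    intro h
    have := R.nY
    rw [h, card_empty, mul_zero] at this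
    exact absurd this (not_le.2 (pow_pos (by norm_num) _))
  have hUW := v8_orth (R.X.image (v8_ph gr R.A M)) (R.Y.image (v8_ph gr R.B M))
    (hXne.image _) (hYne.image _) (by
      intro u hu u' hu' z hz' z' hz''
      obtain ⟨x, hx, rfl⟩ := mem_image.1 hu
      obtain ⟨x', hx', rfl⟩ := mem_image.1 hu'
      obtain ⟨y, hy, rfl⟩ := mem_image.1 hz'
      obtain ⟨y', hy', rfl⟩ := mem_image.1 hz''
      exact hbil x hx x' hx' y hy y' hy')
  rw [Fintype.card_coe] at hUW
  have hfX := v8_fibre gr R.A M inter_subset_left R.x0 R.X R.hX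
  have hfY := v8_fibre gr R.B M inter_subset_right R.x0 R.Y R.hY
  have hMA : M.card ≤ a := by
    rw [← R.cA]
    exact (card_le_card inter_subset_left).trans card_image_le
  have hMB : M.card ≤ b := by
    rw [← R.cB]
    exact (card_le_card inter_subset_right).trans card_image_le
  rw [R.cA] at hfX
  rw [R.cB] at hfY
  rw [hmix]
  have h1 : 2 ^ a * 2 ^ b ≤ 2 ^ (2 * g) * (2 ^ M.card * 2 ^ (a - M.card) * 2 ^ (b - M.card)) := by
    calc 2 ^ a * 2 ^ b ≤ (2 ^ g * R.X.card) * (2 ^ g * R.Y.card) := Nat.mul_le_mul R.nX R.nY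
      _ ≤ (2 ^ g * ((R.X.image (v8_ph gr R.A M)).card * 2 ^ (a - M.card))) *
          (2 ^ g * ((R.Y.image (v8_ph gr R.B M)).card * 2 ^ (b - M.card))) :=
        Nat.mul_le_mul (Nat.mul_le_mul_left _ hfX) (Nat.mul_le_mul_left _ hfY)
      _ = 2 ^ (2 * g) * (((R.X.image (v8_ph gr R.A M)).card *
          (R.Y.image (v8_ph gr R.B M)).card) * 2 ^ (a - M.card) * 2 ^ (b - M.card)) := by
        rw [two_mul, pow_add]; ring
      _ ≤ 2 ^ (2 * g) * (2 ^ M.card * 2 ^ (a - M.card) * 2 ^ (b - M.card)) :=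
        Nat.mul_le_mul_left _ (Nat.mul_le_mul_right _ (Nat.mul_le_mul_right _ hUW))
  rw [← pow_add, ← pow_add, ← pow_add, ← pow_add] at h1
  have h2 := (Nat.pow_le_pow_iff_right (by norm_num : 1 < 2)).1 h1
  omega

end Pool.Agent.H554R2.Lin
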