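import Pool.Agent.H554R2.Lin.Defs

set_option autoImplicit false

open Finset

namespace Pool.Agent.H554R2.Lin

open Pool.Agent.H554R2.Sem Pool.Agent.H554R2.Coin

/-- the permutations which map `A` into `Z` -/
def V9_F {n : ℕ} (Z A : Finset (Fin n)) : Finset (Equiv.Perm (Fin n)) :=
  univ.filter fun σ => ∀ u ∈ A, σ u ∈ Z

theorem V9_step {n : ℕ} (Z : Finset (Fin n)) (hZ : 10 * Z.card ≤ 7 * n) (A : Finset (Fin n))
    (v : Fin n) (hv : v ∉ A) : 10 * (V9_F Z (insert v A)).card ≤ 7 * (V9_F Z A).card := by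
  classical
  set F1 := V9_F Z (insert v A) with hF1
  set F0 := V9_F Z A with hF0
  set a := A.card with ha
  have hAn : a < n := by
    have : A.card < (univ : Finset (Fin n)).card :=
      Finset.card_lt_card (Finset.ssubset_univ_iff.2 fun h => hv (h ▸ Finset.mem_univ v))
    rwa [Finset.card_univ, Fintype.card_fin] at this
  -- the sets of pairs
  set S1 : Finset (Equiv.Perm (Fin n) × Fin n) :=
    (F1 ×ˢ (univ : Finset (Fin n))).filter fun p => p.2 ∉ A.image p.1 with hS1
  set S2 : Finset (Equiv.Perm (Fin n) × Fin n) :=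
    (F0 ×ˢ (univ : Finset (Fin n))).filter fun p => p.2 ∈ Z ∧ p.2 ∉ A.image p.1 with hS2
  have c1 : S1.card = F1.card * (n - a) := by
    rw [hS1, Finset.card_filter, Finset.sum_product]
    have : ∀ σ ∈ F1, ∑ x : Fin n, (if (σ, x).2 ∉ A.image (σ, x).1 then 1 else 0) = n - a := by
      intro σ _
      rw [← Finset.card_filter]
      have e : (univ.filter fun x : Fin n => (σ, x).2 ∉ A.image (σ, x).1) =
          (univ : Finset (Fin n)) \ A.image σ := by
        ext x
        rw [Finset.mem_filter, Finset.mem_sdiff]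
      rw [e, Finset.card_sdiff_of_subset (Finset.subset_univ _), Finset.card_univ,
        Fintype.card_fin, Finset.card_image_of_injective _ σ.injective]
    rw [Finset.sum_congr rfl this, Finset.sum_const, smul_eq_mul]
  have c2 : S2.card = F0.card * (Z.card - a) := by
    rw [hS2, Finset.card_filter, Finset.sum_product]
    have : ∀ σ ∈ F0, ∑ x : Fin n,
        (if (σ, x).2 ∈ Z ∧ (σ, x).2 ∉ A.image (σ, x).1 then 1 else 0) = Z.card - a := by
      intro σ hσ
      rw [← Finset.card_filter]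
      have e : (univ.filter fun x : Fin n => (σ, x).2 ∈ Z ∧ (σ, x).2 ∉ A.image (σ, x).1) =
          Z \ A.image σ := by
        ext x
        rw [Finset.mem_filter, Finset.mem_sdiff]
        exact ⟨fun h => h.2, fun h => ⟨Finset.mem_univ _, h⟩⟩
      have hsub : A.image σ ⊆ Z := by
        intro x hx
        obtain ⟨u, hu, rfl⟩ := Finset.mem_image.1 hx
        exact (Finset.mem_filter.1 hσ).2 u hu
      rw [e, Finset.card_sdiff_of_subset hsub, Finset.card_image_of_injective _ σ.injective]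
    rw [Finset.sum_congr rfl this, Finset.sum_const, smul_eq_mul]
  have hle : S1.card ≤ S2.card := by
    apply Finset.card_le_card_of_injOn
      (fun p => (Equiv.swap (p.1 v) p.2 * p.1, p.1 v))
    · rintro ⟨σ, x⟩ hp
      have hp' : (σ, x) ∈ S1 := hp
      rw [hS1, Finset.mem_filter, Finset.mem_product] at hp'
      obtain ⟨⟨hσ, _⟩, hx⟩ := hp'
      have hσ' := (Finset.mem_filter.1 hσ).2
      have hx' : ∀ u ∈ A, σ u ≠ x := fun u hu h => hx (Finset.mem_image.2 ⟨u, hu, h⟩)
      have hfix : ∀ u ∈ A, (Equiv.swap (σ v) x * σ) u = σ u := by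
        intro u hu
        rw [Equiv.Perm.mul_apply]
        apply Equiv.swap_apply_of_ne_of_ne
        · intro h
          exact hv (σ.injective h ▸ hu)
        · exact hx' u hu
      show (Equiv.swap (σ v) x * σ, σ v) ∈ S2
      rw [hS2, Finset.mem_filter, Finset.mem_product]
      refine ⟨⟨?_, Finset.mem_univ _⟩, hσ' v (Finset.mem_insert_self _ _), ?_⟩
      · rw [hF0]
        unfold V9_F
        rw [Finset.mem_filter]
        refine ⟨Finset.mem_univ _, fun u hu => ?_⟩
        show (Equiv.swap (σ v) x * σ) u ∈ Z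
        rw [hfix u hu]
        exact hσ' u (Finset.mem_insert_of_mem hu)
      · intro h
        obtain ⟨u, hu, h2⟩ := Finset.mem_image.1 h
        have h3 : σ u = σ v := by
          rw [← hfix u hu]; exact h2
        exact hv (σ.injective h3 ▸ hu)
    · rintro ⟨σ, x⟩ hp ⟨τ, y⟩ hq h
      obtain ⟨h1, h2⟩ := Prod.mk.inj h
      simp only at h1 h2
      have hxy : x = y := by
        have h3 := congrArg (fun ρ : Equiv.Perm (Fin n) => ρ v) h1
        simp only [Equiv.Perm.mul_apply, Equiv.swap_apply_left] at h3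
        exact h3
      have hst : σ = τ := by
        rw [h2, hxy] at h1
        exact mul_left_cancel h1
      rw [hst, hxy]
  rw [c1, c2] at hle
  have hpos : 0 < n - a := by omega
  have h5 : 10 * (Z.card - a) ≤ 7 * (n - a) := by omega
  have h6 : 10 * F1.card * (n - a) ≤ 7 * F0.card * (n - a) := by
    calc 10 * F1.card * (n - a) = 10 * (F1.card * (n - a)) := by ring
      _ ≤ 10 * (F0.card * (Z.card - a)) := Nat.mul_le_mul_left _ hle
      _ = F0.card * (10 * (Z.card - a)) := by ring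
      _ ≤ F0.card * (7 * (n - a)) := Nat.mul_le_mul_left _ h5
      _ = 7 * F0.card * (n - a) := by ring
  exact Nat.le_of_mul_le_mul_right h6 hpos

theorem V9_count {n : ℕ} (Z : Finset (Fin n)) (hZ : 10 * Z.card ≤ 7 * n) (A : Finset (Fin n)) :
    10 ^ A.card * (V9_F Z A).card ≤ 7 ^ A.card * Nat.factorial n := by
  classical
  induction A using Finset.induction_on with
  | empty =>
    rw [Finset.card_empty, pow_zero, pow_zero, one_mul, one_mul]
    have : (V9_F Z ∅).card ≤ Fintype.card (Equiv.Perm (Fin n)) := Finset.card_le_univ _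
    rwa [Fintype.card_perm, Fintype.card_fin] at this
  | insert v A hv ih =>
    rw [Finset.card_insert_of_notMem hv]
    have h := V9_step Z hZ A v hv
    calc 10 ^ (A.card + 1) * (V9_F Z (insert v A)).card
        = 10 ^ A.card * (10 * (V9_F Z (insert v A)).card) := by ring
      _ ≤ 10 ^ A.card * (7 * (V9_F Z A).card) := Nat.mul_le_mul_left _ h
      _ = 7 * (10 ^ A.card * (V9_F Z A).card) := by ring
      _ ≤ 7 * (7 ^ A.card * Nat.factorial n) := Nat.mul_le_mul_left _ ih
      _ = 7 ^ (A.card + 1) * Nat.factorial n := by ring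

/-- the groups met by `A` -/
def V9_im {n : ℕ} (σ : Equiv.Perm (Fin n)) (w : ℕ) (A : Finset (Fin n)) : Finset ℕ :=
  A.image (fun v => (σ v : ℕ) / w)

theorem V9_im_sub {n : ℕ} (σ : Equiv.Perm (Fin n)) (w : ℕ) (A : Finset (Fin n)) :
    V9_im σ w A ⊆ range (n / w + 1) := by
  intro x hx
  obtain ⟨v, _, rfl⟩ := Finset.mem_image.1 hx
  rw [Finset.mem_range]
  have : (σ v : ℕ) / w ≤ n / w := Nat.div_le_div_right (σ v).2.le
  omega

theorem V9_few {n w : ℕ} (hw : 0 < w) (hwn : 20 * w ≤ n) (A : Finset (Fin n)) :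
    10 ^ A.card * (univ.filter fun σ : Equiv.Perm (Fin n) =>
      3 * (V9_im σ w A).card ≤ 2 * (n / w + 1)).card ≤
      2 ^ (n / w + 1) * (7 ^ A.card * Nat.factorial n) := by
  classical
  set G := n / w + 1 with hG
  set 𝒴 := (range G).powerset.filter fun Y => 3 * Y.card ≤ 2 * G with h𝒴
  set Z : Finset ℕ → Finset (Fin n) := fun Y => univ.filter fun x : Fin n => (x : ℕ) / w ∈ Y with hZ
  have hsub : (univ.filter fun σ : Equiv.Perm (Fin n) => 3 * (V9_im σ w A).card ≤ 2 * G) ⊆
      𝒴.biUnion fun Y => V9_F (Z Y) A := by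
    intro σ hσ
    rw [Finset.mem_filter] at hσ
    rw [Finset.mem_biUnion]
    refine ⟨V9_im σ w A, ?_, ?_⟩
    · rw [h𝒴, Finset.mem_filter, Finset.mem_powerset]
      exact ⟨V9_im_sub σ w A, hσ.2⟩
    · unfold V9_F
      rw [Finset.mem_filter]
      refine ⟨Finset.mem_univ _, fun u hu => ?_⟩
      rw [hZ, Finset.mem_filter]
      exact ⟨Finset.mem_univ _, Finset.mem_image.2 ⟨u, hu, rfl⟩⟩
  have hZcard : ∀ Y ∈ 𝒴, 10 * (Z Y).card ≤ 7 * n := by
    intro Y hY
    have hY2 := (Finset.mem_filter.1 hY).2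
    have h1 : (Z Y).card ≤ Y.card * w := by
      have : (Z Y).card ≤ w * Y.card := by
        apply Finset.card_le_mul_card_image_of_maps_to (f := fun x : Fin n => (x : ℕ) / w)
        · intro x hx
          exact (Finset.mem_filter.1 hx).2
        · intro y _
          have hinj : ((Z Y).filter fun x : Fin n => (x : ℕ) / w = y).card ≤
              (Finset.Ico (y * w) (y * w + w)).card := by
            apply Finset.card_le_card_of_injOn (fun x : Fin n => (x : ℕ))
            · intro x hx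
              have hx' := (Finset.mem_filter.1 hx).2
              rw [Finset.mem_coe, Finset.mem_Ico]
              have h2 := Nat.div_add_mod (x : ℕ) w
              have h3 := Nat.mod_lt (x : ℕ) hw
              rw [hx', mul_comm w y] at h2
              show y * w ≤ (x : ℕ) ∧ (x : ℕ) < y * w + w
              omega
            · intro x _ y _ h
              exact Fin.ext h
          rw [Nat.card_Ico] at hinj
          omega
      rw [mul_comm] at this
      exact this
    have h2 : G * w ≤ n + w := by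
      rw [hG, add_mul, one_mul]
      have := Nat.div_mul_le_self n w
      omega
    have h3 : 3 * (Z Y).card ≤ 2 * (n + w) := by
      calc 3 * (Z Y).card ≤ 3 * (Y.card * w) := Nat.mul_le_mul_left _ h1
        _ = (3 * Y.card) * w := by ring
        _ ≤ (2 * G) * w := Nat.mul_le_mul_right _ hY2
        _ = 2 * (G * w) := by ring
        _ ≤ 2 * (n + w) := Nat.mul_le_mul_left _ h2
    omega
  calc 10 ^ A.card * (univ.filter fun σ : Equiv.Perm (Fin n) =>
        3 * (V9_im σ w A).card ≤ 2 * G).card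
      ≤ 10 ^ A.card * ∑ Y ∈ 𝒴, (V9_F (Z Y) A).card :=
        Nat.mul_le_mul_left _ ((Finset.card_le_card hsub).trans Finset.card_biUnion_le)
    _ = ∑ Y ∈ 𝒴, 10 ^ A.card * (V9_F (Z Y) A).card := by rw [Finset.mul_sum]
    _ ≤ ∑ _Y ∈ 𝒴, 7 ^ A.card * Nat.factorial n :=
        Finset.sum_le_sum fun Y hY => V9_count (Z Y) (hZcard Y hY) A
    _ = 𝒴.card * (7 ^ A.card * Nat.factorial n) := by rw [Finset.sum_const, smul_eq_mul]
    _ ≤ 2 ^ G * (7 ^ A.card * Nat.factorial n) := by
        apply Nat.mul_le_mul_right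
        refine (Finset.card_filter_le _ _).trans ?_
        rw [Finset.card_powerset, Finset.card_range]

/-- if both sets meet many groups then many groups are mixed -/
theorem V9_mixed {n w a : ℕ} (hw : 0 < w) (haw : a * w ≤ 10 * n) (σ : Equiv.Perm (Fin n))
    (A B : Finset (Fin n)) (hA : 2 * (n / w + 1) < 3 * (V9_im σ w A).card)
    (hB : 2 * (n / w + 1) < 3 * (V9_im σ w B).card) : a ≤ 40 * mixed σ w A B := by
  have h1 : (V9_im σ w A ∪ V9_im σ w B).card ≤ n / w + 1 := by
    have := Finset.card_le_card (Finset.union_subset (V9_im_sub σ w A) (V9_im_sub σ w B))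
    rwa [Finset.card_range] at this
  have h2 := Finset.card_union_add_card_inter (V9_im σ w A) (V9_im σ w B)
  have h3 : mixed σ w A B = (V9_im σ w A ∩ V9_im σ w B).card := rfl
  rw [← h3] at h2
  have h4 : n / w + 1 < 3 * mixed σ w A B := by omega
  have h5 : n < (n / w + 1) * w := by
    have h6 := Nat.div_add_mod n w
    have h7 := Nat.mod_lt n hw
    rw [add_mul, one_mul, mul_comm]
    omega
  have h6 : (n / w + 1) * w ≤ 3 * mixed σ w A B * w := Nat.mul_le_mul_right _ h4.le
  have h7 : a * w ≤ 40 * mixed σ w A B * w := by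
    calc a * w ≤ 10 * n := haw
      _ ≤ 10 * (3 * mixed σ w A B * w) := by omega
      _ ≤ 40 * mixed σ w A B * w := by
        have : 10 * (3 * mixed σ w A B * w) = 30 * (mixed σ w A B * w) := by ring
        have h8 : 40 * mixed σ w A B * w = 40 * (mixed σ w A B * w) := by ring
        omega
  exact Nat.le_of_mul_le_mul_right h7 hw

theorem V9_mixed_mono {n w : ℕ} (σ : Equiv.Perm (Fin n)) {A A' B B' : Finset (Fin n)}
    (hA : A ⊆ A') (hB : B ⊆ B') : mixed σ w A B ≤ mixed σ w A' B' := by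
  unfold mixed
  apply Finset.card_le_card
  exact Finset.inter_subset_inter (Finset.image_subset_image hA) (Finset.image_subset_image hB)

/-- the bad permutations for a pair -/
def V9_bad {n : ℕ} (W : ℕ) (A B : Finset (Fin n)) : Finset (Equiv.Perm (Fin n)) :=
  univ.filter fun σ => ∀ w : Fin W, 40 * mixed σ w A B < min A.card B.card

theorem V9_bad_card {n Q : ℕ} (hQ : 1 ≤ Q) (hn : 400 * Q ≤ n) (A B : Finset (Fin n))
    (hA : n ≤ Q * A.card) (hB : n ≤ Q * B.card) :
    4 ^ n * (V9_bad (10 * Q + 1) A B).card ^ (6 * Q) < Nat.factorial n ^ (6 * Q) := by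
  classical
  obtain ⟨a, ha⟩ : ∃ a, a = min A.card B.card := ⟨_, rfl⟩
  have hQa : n ≤ Q * a := by
    rcases le_total A.card B.card with h | h
    · rw [ha, min_eq_left h]; exact hA
    · rw [ha, min_eq_right h]; exact hB
  have ha400 : 400 ≤ a := by
    have h1 : Q * 400 ≤ Q * a := by
      calc Q * 400 = 400 * Q := mul_comm _ _
        _ ≤ n := hn
        _ ≤ Q * a := hQa
    exact Nat.le_of_mul_le_mul_left h1 hQ
  have han : a ≤ n := by
    have h1 : A.card ≤ n := by
      have := Finset.card_le_univ A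
      rwa [Fintype.card_fin] at this
    have h2 := min_le_left A.card B.card
    omega
  obtain ⟨w, hw⟩ : ∃ w, w = 10 * n / a := ⟨_, rfl⟩
  have haw : a * w ≤ 10 * n := by rw [hw]; exact Nat.mul_div_le _ _
  have haw2 : 10 * n < a * (w + 1) := by
    rw [hw]
    exact Nat.lt_mul_div_succ _ (by omega)
  have hw10 : 10 ≤ w := by
    rw [hw, Nat.le_div_iff_mul_le (by omega)]
    omega
  have hwQ : w ≤ 10 * Q := by
    rw [hw]
    apply Nat.div_le_of_le_mul
    calc 10 * n ≤ 10 * (Q * a) := Nat.mul_le_mul_left _ hQa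
      _ = a * (10 * Q) := by ring
  have hwn : 20 * w ≤ n := by omega
  have hwpos : 0 < w := by omega
  obtain ⟨G, hG⟩ : ∃ G, G = n / w + 1 := ⟨_, rfl⟩
  have hGa : 6 * (G + 1) ≤ a := by
    obtain ⟨m, hm⟩ : ∃ m, m = n / w := ⟨_, rfl⟩
    have h1 : m * w ≤ n := by rw [hm]; exact Nat.div_mul_le_self n w
    have h2 : 100 * m * w ≤ 11 * a * w := by
      have h3 : 10 * (10 * (m * w)) ≤ 10 * (a * (w + 1)) := by omega
      have h4 : 10 * a ≤ a * w := by
        rw [mul_comm 10 a]; exact Nat.mul_le_mul_left _ hw10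
      calc 100 * m * w = 10 * (10 * (m * w)) := by ring
        _ ≤ 10 * (a * (w + 1)) := h3
        _ = 10 * (a * w) + 10 * a := by ring
        _ ≤ 10 * (a * w) + a * w := by omega
        _ = 11 * a * w := by ring
    have h5 : 100 * m ≤ 11 * a := Nat.le_of_mul_le_mul_right h2 hwpos
    rw [hG, ← hm]
    omega
  obtain ⟨A1, hA1, hA1c⟩ := Finset.exists_subset_card_eq (s := A) (n := a)
    (by rw [ha]; exact min_le_left _ _)
  obtain ⟨B1, hB1, hB1c⟩ := Finset.exists_subset_card_eq (s := B) (n := a)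
    (by rw [ha]; exact min_le_right _ _)
  set f1 := univ.filter fun σ : Equiv.Perm (Fin n) => 3 * (V9_im σ w A1).card ≤ 2 * (n / w + 1)
    with hf1
  set f2 := univ.filter fun σ : Equiv.Perm (Fin n) => 3 * (V9_im σ w B1).card ≤ 2 * (n / w + 1)
    with hf2
  have hsub : V9_bad (10 * Q + 1) A B ⊆ f1 ∪ f2 := by
    intro σ hσ
    have h1 := (Finset.mem_filter.1 hσ).2 ⟨w, by omega⟩
    rw [Finset.mem_union, hf1, hf2, Finset.mem_filter, Finset.mem_filter]
    by_contra hcon
    rw [not_or] at hcon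
    obtain ⟨g1, g2⟩ := hcon
    have g1' : 2 * (n / w + 1) < 3 * (V9_im σ w A1).card := by
      by_contra h; exact g1 ⟨Finset.mem_univ _, not_lt.1 h⟩
    have g2' : 2 * (n / w + 1) < 3 * (V9_im σ w B1).card := by
      by_contra h; exact g2 ⟨Finset.mem_univ _, not_lt.1 h⟩
    have g3 := V9_mixed hwpos haw σ A1 B1 g1' g2'
    have g4 := V9_mixed_mono (w := w) σ hA1 hB1
    rw [← ha] at h1
    simp only at h1
    omega
  have hk1 := V9_few hwpos hwn A1
  have hk2 := V9_few hwpos hwn B1
  rw [hA1c, ← hf1, ← hG] at hk1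
  rw [hB1c, ← hf2, ← hG] at hk2
  set b := (V9_bad (10 * Q + 1) A B).card with hb
  have hb1 : 10 ^ a * b ≤ 2 ^ (G + 1) * (7 ^ a * Nat.factorial n) := by
    have h1 : b ≤ f1.card + f2.card := (Finset.card_le_card hsub).trans (Finset.card_union_le _ _)
    calc 10 ^ a * b ≤ 10 ^ a * (f1.card + f2.card) := Nat.mul_le_mul_left _ h1
      _ = 10 ^ a * f1.card + 10 ^ a * f2.card := by ring
      _ ≤ 2 ^ G * (7 ^ a * Nat.factorial n) + 2 ^ G * (7 ^ a * Nat.factorial n) :=
          Nat.add_le_add hk1 hk2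
      _ = 2 ^ (G + 1) * (7 ^ a * Nat.factorial n) := by rw [pow_succ]; ring
  have hfac : 0 < Nat.factorial n ^ (6 * Q) := pow_pos (Nat.factorial_pos n) _
  -- raise to the power `6 Q`
  have hpow : 10 ^ (6 * (Q * a)) * (4 ^ n * b ^ (6 * Q)) ≤
      (8 * 7 ^ 6) ^ (Q * a) * Nat.factorial n ^ (6 * Q) := by
    have h1 : (10 ^ a * b) ^ (6 * Q) ≤ (2 ^ (G + 1) * (7 ^ a * Nat.factorial n)) ^ (6 * Q) :=
      Nat.pow_le_pow_left hb1 _
    have h2 : 4 ^ n ≤ 4 ^ (Q * a) := Nat.pow_le_pow_right (by norm_num) hQa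
    have h3 : 2 ^ ((G + 1) * (6 * Q)) ≤ 2 ^ (Q * a) := by
      apply Nat.pow_le_pow_right (by norm_num)
      calc (G + 1) * (6 * Q) = Q * (6 * (G + 1)) := by ring
        _ ≤ Q * a := Nat.mul_le_mul_left _ hGa
    have e1 : (10 ^ a * b) ^ (6 * Q) = 10 ^ (6 * (Q * a)) * b ^ (6 * Q) := by
      rw [mul_pow, ← pow_mul]
      congr 2
      ring
    have e2 : (2 ^ (G + 1) * (7 ^ a * Nat.factorial n)) ^ (6 * Q) =
        2 ^ ((G + 1) * (6 * Q)) * (7 ^ (6 * (Q * a)) * Nat.factorial n ^ (6 * Q)) := by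
      rw [mul_pow, mul_pow, ← pow_mul, ← pow_mul]
      congr 3
      ring
    rw [e1, e2] at h1
    calc 10 ^ (6 * (Q * a)) * (4 ^ n * b ^ (6 * Q))
        = 4 ^ n * (10 ^ (6 * (Q * a)) * b ^ (6 * Q)) := by ring
      _ ≤ 4 ^ (Q * a) * (2 ^ ((G + 1) * (6 * Q)) *
          (7 ^ (6 * (Q * a)) * Nat.factorial n ^ (6 * Q))) := Nat.mul_le_mul h2 h1
      _ ≤ 4 ^ (Q * a) * (2 ^ (Q * a) * (7 ^ (6 * (Q * a)) * Nat.factorial n ^ (6 * Q))) :=
          Nat.mul_le_mul_left _ (Nat.mul_le_mul_right _ h3)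
      _ = (8 * 7 ^ 6) ^ (Q * a) * Nat.factorial n ^ (6 * Q) := by
          have e3 : (8 * 7 ^ 6) ^ (Q * a) = 4 ^ (Q * a) * (2 ^ (Q * a) * 7 ^ (6 * (Q * a))) := by
            rw [pow_mul 7 6, ← mul_pow, ← mul_pow]
            norm_num
          rw [e3]
          ring
  have hstrict : (8 * 7 ^ 6) ^ (Q * a) < 10 ^ (6 * (Q * a)) := by
    rw [pow_mul 10 6]
    apply Nat.pow_lt_pow_left (by norm_num)
    have : 0 < Q * a := Nat.mul_pos hQ (by omega)
    omega
  by_contra hcon
  rw [not_lt] at hcon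
  have h1 : 10 ^ (6 * (Q * a)) * Nat.factorial n ^ (6 * Q) ≤
      (8 * 7 ^ 6) ^ (Q * a) * Nat.factorial n ^ (6 * Q) :=
    (Nat.mul_le_mul_left _ hcon).trans hpow
  have h2 := Nat.le_of_mul_le_mul_right h1 hfac
  omega

/-- L9: random orders -/
theorem exists_orders (Q : ℕ) : ∃ M W N : ℕ, ∀ n ≥ N, ∃ σ : Fin M → Equiv.Perm (Fin n),
    ∀ A B : Finset (Fin n), n ≤ Q * A.card → n ≤ Q * B.card →
      ∃ j : Fin M, ∃ w : Fin W, min A.card B.card ≤ 40 * mixed (σ j) w A B := by
  classical
  rcases Nat.eq_zero_or_pos Q with rfl | hQ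
  · refine ⟨0, 0, 1, fun n hn => ⟨fun _ => 1, fun A B hA _ => ?_⟩⟩
    rw [zero_mul] at hA
    omega
  refine ⟨6 * Q, 10 * Q + 1, 400 * Q, fun n hn => ?_⟩
  set M := 6 * Q with hM
  set P := (univ : Finset (Finset (Fin n) × Finset (Fin n))).filter
    fun p => n ≤ Q * p.1.card ∧ n ≤ Q * p.2.card with hP
  set bad : Finset (Fin n) × Finset (Fin n) → Finset (Fin M → Equiv.Perm (Fin n)) :=
    fun p => Fintype.piFinset fun _ : Fin M => V9_bad (10 * Q + 1) p.1 p.2 with hbad
  have hcard : ∀ p, (bad p).card = (V9_bad (10 * Q + 1) p.1 p.2).card ^ M := by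
    intro p
    rw [hbad, Fintype.card_piFinset, Finset.prod_const, Finset.card_univ, Fintype.card_fin]
  have htot : (P.biUnion bad).card < (univ : Finset (Fin M → Equiv.Perm (Fin n))).card := by
    have h1 : (univ : Finset (Fin M → Equiv.Perm (Fin n))).card = Nat.factorial n ^ M := by
      rw [Finset.card_univ, Fintype.card_fun, Fintype.card_perm, Fintype.card_fin,
        Fintype.card_fin]
    rw [h1]
    refine lt_of_le_of_lt Finset.card_biUnion_le ?_
    rcases Finset.eq_empty_or_nonempty P with hPe | hPne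
    · rw [hPe, Finset.sum_empty]
      exact pow_pos (Nat.factorial_pos n) _
    · have h2 : 4 ^ n * ∑ p ∈ P, (bad p).card < 4 ^ n * Nat.factorial n ^ M := by
        rw [Finset.mul_sum]
        calc ∑ p ∈ P, 4 ^ n * (bad p).card < ∑ _p ∈ P, Nat.factorial n ^ M := by
              apply Finset.sum_lt_sum_of_nonempty hPne
              intro p hp
              rw [hcard]
              obtain ⟨_, hp1, hp2⟩ := Finset.mem_filter.1 hp
              exact V9_bad_card hQ hn p.1 p.2 hp1 hp2
          _ = P.card * Nat.factorial n ^ M := by rw [Finset.sum_const, smul_eq_mul]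
          _ ≤ 4 ^ n * Nat.factorial n ^ M := by
              apply Nat.mul_le_mul_right
              refine (Finset.card_le_univ _).trans ?_
              rw [Fintype.card_prod, Fintype.card_finset, Fintype.card_fin, ← mul_pow]
              norm_num
      exact Nat.lt_of_mul_lt_mul_left h2
  obtain ⟨σ, _, hσ⟩ := Finset.exists_mem_notMem_of_card_lt_card htot
  refine ⟨σ, fun A B hA hB => ?_⟩
  by_contra hcon
  push Not at hcon
  apply hσ
  rw [Finset.mem_biUnion]
  refine ⟨(A, B), ?_, ?_⟩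
  · rw [hP, Finset.mem_filter]
    exact ⟨Finset.mem_univ _, hA, hB⟩
  · rw [hbad, Fintype.mem_piFinset]
    intro j
    unfold V9_bad
    rw [Finset.mem_filter]
    exact ⟨Finset.mem_univ _, fun w => hcon j w⟩

end Pool.Agent.H554R2.Lin
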