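import Pool.Agent.H554R2.Lin.Defs

/-!
# V10: the width-4 programs
-/

set_option autoImplicit false

open Finset

namespace Pool.Agent.H554R2.Lin

open Pool.Agent.H554R2.Sem Pool.Agent.H554R2.Coin

section walk

variable {n : ℕ} {β : Type}

theorem V10_walk_snoc (P : BP (Fin n) β) (x : Fin n → Bool) (l : List (Fin n)) (i : Fin n)
    (s v : P.State) (nxt : Bool → P.State) (h : P.Walk x s l v)
    (hv : P.node v = Sum.inl (i, nxt)) : P.Walk x s (l ++ [i]) (nxt (x i)) := by
  induction l generalizing s with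
  | nil =>
    have h1 : s = v := h
    subst h1
    exact ⟨nxt, hv, rfl⟩
  | cons j l ih =>
    obtain ⟨nxt', h1, h2⟩ := h
    exact ⟨nxt', h1, ih _ h2⟩

/-- the variables in the order `τ`, the first `p` of them -/
def V10_l (τ : Equiv.Perm (Fin n)) : ℕ → List (Fin n)
  | 0 => []
  | p + 1 => V10_l τ p ++ (if h : p < n then [τ.symm ⟨p, h⟩] else [])

theorem V10_l_lt (τ : Equiv.Perm (Fin n)) : ∀ p : ℕ, ∀ i ∈ V10_l τ p, (τ i : ℕ) < p := by
  intro p
  induction p with
  | zero => intro i hi; simp [V10_l] at hi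
  | succ p ih =>
    intro i hi
    rw [V10_l, List.mem_append] at hi
    rcases hi with hi | hi
    · have := ih i hi
      omega
    · split_ifs at hi with h
      · rw [List.mem_singleton] at hi
        subst hi
        simp
      · simp at hi

theorem V10_l_nodup (τ : Equiv.Perm (Fin n)) : ∀ p : ℕ, (V10_l τ p).Nodup := by
  intro p
  induction p with
  | zero => exact List.nodup_nil
  | succ p ih =>
    rw [V10_l, List.nodup_append]
    refine ⟨ih, ?_, ?_⟩
    · split_ifs
      · exact List.nodup_singleton _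
      · exact List.nodup_nil
    · intro a ha b hb hab
      split_ifs at hb with h
      · rw [List.mem_singleton] at hb
        subst hab
        subst hb
        have h4 := V10_l_lt τ p _ ha
        simp at h4
      · simp at hb

/-- a pass over the variables in the order `τ` -/
theorem V10_scan (P : BP (Fin n) β) {γ : Type} (τ : Equiv.Perm (Fin n))
    (f : ℕ → γ → P.State) (upd : ℕ → Bool → γ → γ)
    (hnode : ∀ (p : ℕ) (hp : p < n) (c : γ),
      P.node (f p c) = Sum.inl (τ.symm ⟨p, hp⟩, fun b => f (p + 1) (upd p b c)))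
    (x : Fin n → Bool) (c : ℕ → γ)
    (hc : ∀ (p : ℕ) (hp : p < n), c (p + 1) = upd p (x (τ.symm ⟨p, hp⟩)) (c p)) :
    ∀ p ≤ n, P.Walk x (f 0 (c 0)) (V10_l τ p) (f p (c p)) := by
  intro p
  induction p with
  | zero => intro _; exact rfl
  | succ p ih =>
    intro hp
    have h3 := ih (by omega)
    have hp' : p < n := by omega
    have h4 := V10_walk_snoc P x (V10_l τ p) _ _ _ _ h3 (hnode p hp' (c p))
    rw [hc p hp', V10_l, dif_pos hp']
    exact h4

end walk

/-! ### counting -/

/-- number of ones before `p` in the group of `p` -/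
def V10_cnt (y : ℕ → Bool) (w p : ℕ) : ℕ :=
  ((range p).filter (fun q => q / w = p / w ∧ y q = true)).card

/-- number of pairs before `p` -/
def V10_acc (y : ℕ → Bool) (w p : ℕ) : ℕ := ∑ q ∈ range p, if y q = true then V10_cnt y w q else 0

theorem V10_cnt_same (y : ℕ → Bool) (w p : ℕ) (h : (p + 1) / w = p / w) :
    V10_cnt y w (p + 1) = V10_cnt y w p + if y p = true then 1 else 0 := by
  unfold V10_cnt
  rw [h, range_add_one, filter_insert]
  by_cases hy : y p = true
  · rw [if_pos ⟨rfl, hy⟩, if_pos hy, card_insert_of_notMem (by simp)]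
  · rw [if_neg (fun h' => hy h'.2), if_neg hy, add_zero]

theorem V10_cnt_new (y : ℕ → Bool) (w p : ℕ) (h : (p + 1) / w ≠ p / w) :
    V10_cnt y w (p + 1) = 0 := by
  unfold V10_cnt
  rw [card_eq_zero, filter_eq_empty_iff]
  intro q hq hq'
  rw [mem_range] at hq
  have h1 : q / w ≤ p / w := Nat.div_le_div_right (by omega)
  have h2 : p / w ≤ (p + 1) / w := Nat.div_le_div_right (by omega)
  omega

theorem V10_par_succ (y : ℕ → Bool) (w p : ℕ) :
    decide (Odd (V10_cnt y w (p + 1))) =
      if (p + 1) / w ≠ p / w then false else xor (decide (Odd (V10_cnt y w p))) (y p) := by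
  by_cases h : (p + 1) / w = p / w
  · rw [if_neg (by simpa using h), V10_cnt_same y w p h]
    cases hy : y p with
    | false => simp
    | true =>
      rw [if_pos rfl, Bool.xor_true, ← decide_not]
      congr 1
      rw [Nat.odd_add_one]
  · rw [if_pos h, V10_cnt_new y w p h]
    simp

theorem V10_acc_succ (y : ℕ → Bool) (w p : ℕ) :
    decide (Odd (V10_acc y w (p + 1))) =
      xor (decide (Odd (V10_acc y w p))) (decide (Odd (V10_cnt y w p)) && y p) := by
  unfold V10_acc
  rw [sum_range_succ]
  cases hy : y p with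
  | false => simp
  | true =>
    rw [if_pos rfl, Bool.and_true]
    by_cases h1 : Odd (∑ q ∈ range p, if y q = true then V10_cnt y w q else 0)
    · by_cases h2 : Odd (V10_cnt y w p)
      · simp [h1, h2, Nat.odd_add]
      · simp [h1, h2, Nat.odd_add]
        exact Nat.not_odd_iff_even.1 h2
    · by_cases h2 : Odd (V10_cnt y w p)
      · simp [h1, h2, Nat.odd_add]
      · simp [h1, h2, Nat.odd_add]

/-- the bit at a position -/
def V10_bit {n : ℕ} (σ : Equiv.Perm (Fin n)) (x : Pt n) (p : ℕ) : Bool :=
  if h : p < n then x (σ.symm ⟨p, h⟩) else false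

theorem V10_qf {n : ℕ} (σ : Equiv.Perm (Fin n)) (w : ℕ) (x : Pt n) :
    qf σ w x = decide (Odd (V10_acc (V10_bit σ x) w n)) := by
  unfold qf
  congr 2
  have h1 : (univ.filter (fun p : Fin n × Fin n => σ p.1 < σ p.2 ∧
      (σ p.1 : ℕ) / w = (σ p.2 : ℕ) / w ∧ x p.1 = true ∧ x p.2 = true)).card =
      ∑ j : Fin n, ∑ i : Fin n, if (i : ℕ) < j ∧ (i : ℕ) / w = (j : ℕ) / w ∧ V10_bit σ x i = true ∧
        V10_bit σ x j = true then 1 else 0 := by
    rw [card_filter, Fintype.sum_prod_type_right, ← σ.symm.sum_comp]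
    refine sum_congr rfl fun j _ => ?_
    rw [← σ.symm.sum_comp]
    refine sum_congr rfl fun i _ => ?_
    simp only [Equiv.apply_symm_apply, V10_bit, Fin.is_lt, dif_pos, Fin.eta]
    rfl
  rw [h1]
  unfold V10_acc
  rw [← Fin.sum_univ_eq_sum_range (fun q => if V10_bit σ x q = true then V10_cnt (V10_bit σ x) w q else 0) n]
  refine sum_congr rfl fun j _ => ?_
  rw [Fin.sum_univ_eq_sum_range (fun i => if i < (j : ℕ) ∧ i / w = (j : ℕ) / w ∧ V10_bit σ x i = true ∧
        V10_bit σ x j = true then 1 else 0) n]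
  by_cases hj : V10_bit σ x j = true
  · rw [if_pos hj, V10_cnt, card_filter]
    have hsub : range (j : ℕ) ⊆ range n := by
      intro q hq
      rw [mem_range] at hq ⊢
      exact hq.trans j.2
    rw [← sum_subset hsub]
    · refine sum_congr rfl fun i hi => ?_
      rw [mem_range] at hi
      simp [hi, hj]
    · intro i _ hi
      rw [mem_range] at hi
      simp [hi]
  · rw [if_neg hj]
    refine sum_eq_zero fun i _ => ?_
    rw [if_neg]
    rintro ⟨_, _, _, h⟩
    exact hj h

/-- L10: the programs -/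
theorem form_program {n : ℕ} (σ : Equiv.Perm (Fin n)) (w : ℕ) (β : Bool) :
    ∃ (U : BP (Fin n) Bool) (l : List (Fin n)), Fintype.card U.State = 4 * (n + 1) ∧ l.Nodup ∧
      ∀ x : Pt n, U.Comp x l (xor β (qf σ w x)) := by
  classical
  let U : BP (Fin n) Bool :=
    { State := Fin (n + 1) × Bool × Bool
      start := (0, false, false)
      node := fun s => if h : (s.1 : ℕ) < n then
        Sum.inl (σ.symm ⟨s.1, h⟩, fun b => (⟨(s.1 : ℕ) + 1, by omega⟩,
          (if ((s.1 : ℕ) + 1) / w ≠ (s.1 : ℕ) / w then false else xor s.2.1 b),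
          xor s.2.2 (s.2.1 && b)))
        else Sum.inr (xor β s.2.2) }
  refine ⟨U, V10_l σ n, ?_, V10_l_nodup σ n, ?_⟩
  · show Fintype.card (Fin (n + 1) × Bool × Bool) = 4 * (n + 1)
    simp only [Fintype.card_prod, Fintype.card_fin, Fintype.card_bool]
    ring
  · intro x
    let f : ℕ → Bool × Bool → U.State := fun p c =>
      (if h : p < n + 1 then ⟨p, h⟩ else 0, c)
    let c : ℕ → Bool × Bool := fun p => (decide (Odd (V10_cnt (V10_bit σ x) w p)),
      decide (Odd (V10_acc (V10_bit σ x) w p)))
    have hnode : ∀ (p : ℕ) (hp : p < n) (c : Bool × Bool),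
        U.node (f p c) = Sum.inl (σ.symm ⟨p, hp⟩, fun b => f (p + 1)
          ((fun (p : ℕ) (b : Bool) (c : Bool × Bool) =>
            ((if (p + 1) / w ≠ p / w then false else xor c.1 b), xor c.2 (c.1 && b))) p b c)) := by
      intro p hp c
      have hp1 : p < n + 1 := by omega
      have hp2 : p + 1 < n + 1 := by omega
      have e1 : f p c = (⟨p, hp1⟩, c) := by simp only [f, dif_pos hp1]
      rw [e1]
      have e2 : U.node (⟨p, hp1⟩, c) = Sum.inl (σ.symm ⟨p, hp⟩, fun b => (⟨p + 1, hp2⟩,
          (if (p + 1) / w ≠ p / w then false else xor c.1 b),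
          xor c.2 (c.1 && b))) := by
        show (if h : p < n then _ else _) = _
        rw [dif_pos hp]
      rw [e2]
      congr 2
      funext b
      simp only [f, dif_pos hp2]
    have hw := V10_scan U σ f
      (fun (p : ℕ) (b : Bool) (c : Bool × Bool) =>
            ((if (p + 1) / w ≠ p / w then false else xor c.1 b), xor c.2 (c.1 && b)))
      hnode x c (by
        intro p hp
        have hb : V10_bit σ x p = x (σ.symm ⟨p, hp⟩) := by simp only [V10_bit, dif_pos hp]
        simp only [c]
        rw [V10_par_succ, V10_acc_succ, hb]) n le_rfl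
    have h0 : f 0 (c 0) = U.start := by
      show ((if h : 0 < n + 1 then (⟨0, h⟩ : Fin (n + 1)) else 0),
        decide (Odd (V10_cnt (V10_bit σ x) w 0)), decide (Odd (V10_acc (V10_bit σ x) w 0))) =
        ((0 : Fin (n + 1)), false, false)
      simp [V10_cnt, V10_acc]
    rw [h0] at hw
    refine ⟨_, hw, ?_⟩
    have e1 : f n (c n) = (⟨n, by omega⟩, c n) := by
      simp only [f, dif_pos (Nat.lt_succ_self n)]
    rw [e1, V10_qf]
    show (if h : n < n then _ else _) = _
    rw [dif_neg (lt_irrefl n)]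

end Pool.Agent.H554R2.Lin
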