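import Pool.Agent.H554R2.Lin.Main
import Pool.Agent.H554R2.Lin.Blocks
import Pool.Agent.H554R2.Lin.Form
import Pool.Agent.H554R2.Lin.Orders
import Pool.Agent.H554R2.Lin.OrProgram
import Pool.Agent.H554R2.Lin.V10

set_option autoImplicit false

open Finset

namespace Pool.Agent.H554R2.Lin

open Pool.Agent.H554R2.Sem Pool.Agent.H554R2.Coin

/-- pigeonhole -/
theorem exists_const {n m : ℕ} (h : m ≤ n) (q : Fin m → Pt n → Bool) :
    ∃ c : Fin m → Bool, 2 ^ (n - m) ≤ (univ.filter (fun x : Pt n => ∀ j, q j x = c j)).card := by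
  obtain ⟨c, -, hc⟩ := Finset.exists_le_card_fiber_of_mul_le_card_of_maps_to
    (s := (univ : Finset (Pt n))) (t := (univ : Finset (Fin m → Bool)))
    (f := fun x j => q j x) (n := 2 ^ (n - m)) (fun x _ => Finset.mem_univ _)
    Finset.univ_nonempty (by
      simp only [Finset.card_univ, Fintype.card_fun, Fintype.card_bool, Fintype.card_fin]
      rw [← pow_add, Nat.add_sub_cancel' h])
  refine ⟨c, hc.trans (Finset.card_le_card ?_)⟩
  intro x hx
  simp only [Finset.mem_filter, Finset.mem_univ, true_and] at hx ⊢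
  intro j
  rw [← hx]

theorem final (k : ℕ) : ∃ D : ℕ, 0 < D ∧ ∀ n ≥ D, ∃ (f : Pt n → Bool) (m : ℕ)
    (U : Fin m → BP (Fin n) Bool) (l : Fin m → List (Fin n)),
    m ≤ D ∧ (∀ j, Fintype.card (U j).State = 4 * (n + 1) ∧ (l j).Nodup) ∧
    (∀ x, ∃ b : Fin m → Bool, (∀ j, (U j).Comp x (l j) (b j)) ∧
      (f x = true ↔ ∃ j, b j = true)) ∧
    (∃ P : BP (Fin n) Bool, Fintype.card P.State ≤ D * (n + 1) ∧
      ∀ x, ∃ L : List (Fin n), (∀ i, L.count i ≤ D) ∧ P.Comp x L (f x)) ∧
    ∀ P : BP (Fin n) Bool, Fintype.card P.State < 2 ^ (n / D) →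
      (∀ x, f x = true → ¬ ∃ l, P.Comp x l false) →
      2 ^ (n / D) * Nat.card {x // ∃ l, P.Comp x l false ∧ l.length ≤ k * n} <
        Nat.card {x // f x = false} := by
  classical
  obtain ⟨Q, r, N, hQ, hr, hN, hmain⟩ := main_rect (k + 1)
  obtain ⟨M, W, N1, hord⟩ := exists_orders Q
  set m := M * W with hm
  set D := N * (r + 2 + m) + N1 + r + 4 * m + 1 with hD
  have hD0 : 0 < D := by omega
  refine ⟨D, hD0, ?_⟩
  intro n hn
  have hmD : m ≤ D := by omega
  have hND : N ≤ D := by
    have : N * 1 ≤ N * (r + 2 + m) := Nat.mul_le_mul_left N (by omega)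
    omega
  obtain ⟨σ, hσ⟩ := hord n (by omega)
  -- the forms
  set e : Fin m ≃ Fin M × Fin W := finProdFinEquiv.symm with he
  obtain ⟨c, hc⟩ := exists_const (n := n) (m := m) (by omega)
    (fun j x => qf (σ (e j).1) (e j).2 x)
  choose U l hU using fun j : Fin m => form_program (σ (e j).1) ((e j).2 : ℕ) (c j)
  have hf : ∀ x : Pt n, (∃ j, xor (c j) (qf (σ (e j).1) ((e j).2 : ℕ) x) = true) ↔
      ¬ ∀ j, qf (σ (e j).1) ((e j).2 : ℕ) x = c j := by
    intro x
    push Not
    refine exists_congr fun j => ?_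
    cases c j <;> cases qf (σ (e j).1) ((e j).2 : ℕ) x <;> simp
  set f : Pt n → Bool := fun x =>
    decide (∃ j, xor (c j) (qf (σ (e j).1) ((e j).2 : ℕ) x) = true) with hfdef
  refine ⟨f, m, U, l, hmD, fun j => ⟨(hU j).1, (hU j).2.1⟩, ?_, ?_, ?_⟩
  · intro x
    refine ⟨fun j => xor (c j) (qf (σ (e j).1) ((e j).2 : ℕ) x), fun j => (hU j).2.2 x, ?_⟩
    rw [hfdef]
    simp only [decide_eq_true_eq]
  · obtain ⟨P, hP1, hP2⟩ := or_program U l
      (fun j x => xor (c j) (qf (σ (e j).1) ((e j).2 : ℕ) x)) (K := 4 * (n + 1))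
      (fun j => (hU j).1.le) (fun j => (hU j).2.1) (fun j x => (hU j).2.2 x)
    refine ⟨P, ?_, ?_⟩
    · refine hP1.trans ?_
      have h1 : 4 * m + 1 ≤ D := by omega
      calc m * (4 * (n + 1)) + 1 ≤ (4 * m + 1) * (n + 1) := by nlinarith
        _ ≤ D * (n + 1) := Nat.mul_le_mul_right _ h1
    · intro x
      obtain ⟨L, hL1, hL2⟩ := hP2 x
      exact ⟨L, fun i => (hL1 i).trans hmD, hL2⟩
  · intro P hPs hPf
    by_contra hneg
    push Not at hneg
    set G : Finset (Pt n) := univ.filter (fun x => ∃ l, P.Comp x l false ∧ l.length ≤ k * n)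
      with hG
    have hGc : Nat.card {x // ∃ l, P.Comp x l false ∧ l.length ≤ k * n} = G.card := by
      rw [Nat.card_eq_fintype_card, Fintype.card_subtype]
    have hZ : 2 ^ (n - m) ≤ Nat.card {x // f x = false} := by
      rw [Nat.card_eq_fintype_card, Fintype.card_subtype]
      refine hc.trans (Finset.card_le_card ?_)
      intro x hx
      simp only [Finset.mem_filter, Finset.mem_univ, true_and] at hx ⊢
      rw [hfdef]
      simp only [decide_eq_false_iff_not]
      rw [hf]
      exact fun h => h hx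
    rw [hGc] at hneg
    -- blocks
    set s := k * n / r + 1 with hs
    have hs1 : k * n ≤ r * s := by
      have := Nat.lt_mul_div_succ (k * n) hr
      rw [hs]; exact this.le
    have hs2 : r * s ≤ (k + 1) * n := by
      have h1 := Nat.mul_div_le (k * n) r
      have h2 : r ≤ n := by omega
      rw [hs]; nlinarith
    obtain ⟨B, hB1, hB2⟩ := blocks P r s hr G (by
      intro x hx
      obtain ⟨l, hl, hl2⟩ := (Finset.mem_filter.1 hx).2
      exact ⟨l, hl, hl2.trans hs1⟩)
    -- the size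
    have hnD : 1 ≤ n / D := (Nat.one_le_div_iff hD0).2 hn
    have hexp : m + (n / D) * (r + 2) ≤ n / N := by
      rw [Nat.le_div_iff_mul_le hN]
      calc (m + (n / D) * (r + 2)) * N ≤ ((n / D) * m + (n / D) * (r + 2)) * N := by
            apply Nat.mul_le_mul_right
            nlinarith
        _ = (n / D) * (N * (r + 2 + m)) := by ring
        _ ≤ (n / D) * D := Nat.mul_le_mul_left _ (by omega)
        _ ≤ n := Nat.div_mul_le_self n D
    have hKbig : 2 ^ n ≤ 2 ^ (n / N) * B.K.card := by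
      calc 2 ^ n = 2 ^ m * 2 ^ (n - m) := by rw [← pow_add]; congr 1; omega
        _ ≤ 2 ^ m * (2 ^ (n / D) * G.card) :=
            Nat.mul_le_mul_left _ (hZ.trans hneg)
        _ ≤ 2 ^ m * (2 ^ (n / D) * ((2 ^ (n / D)) ^ (r + 1) * B.K.card)) := by
            apply Nat.mul_le_mul_left
            apply Nat.mul_le_mul_left
            refine hB1.trans (Nat.mul_le_mul_right _ ?_)
            exact Nat.pow_le_pow_left hPs.le _
        _ = 2 ^ (m + (n / D) * (r + 2)) * B.K.card := by
            rw [← pow_mul, ← mul_assoc, ← mul_assoc, ← pow_add, ← pow_add]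
            congr 2
            ring
        _ ≤ 2 ^ (n / N) * B.K.card :=
            Nat.mul_le_mul_right _ (Nat.pow_le_pow_right (by norm_num) hexp)
    obtain ⟨a, b, g, ha, hb, hga, hgb, ⟨R⟩⟩ := hmain n (by omega) s hs2 B hKbig
    obtain ⟨j, w, hjw⟩ := hσ R.A R.B (by rw [R.cA]; exact ha) (by rw [R.cB]; exact hb)
    have hzero : ∀ x ∈ B.K, qf (σ j) (w : ℕ) x = c (e.symm (j, w)) := by
      intro x hx
      have h1 : f x ≠ true := fun h => hPf x h (hB2 x hx)
      have h2 : ¬ ∃ j, xor (c j) (qf (σ (e j).1) ((e j).2 : ℕ) x) = true := by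
        intro h
        exact h1 (by rw [hfdef]; simpa using h)
      rw [hf, not_not] at h2
      have h3 := h2 (e.symm (j, w))
      rw [Equiv.apply_symm_apply] at h3
      exact h3
    have hmix := rect_form B.K R (σ j) (c (e.symm (j, w))) hzero
    rw [R.cA, R.cB] at hjw
    have hab : min a b ≤ 80 * g := by omega
    have hg0 : min a b = 0 := by omega
    rcases Nat.min_eq_zero_iff.1 hg0 with h | h
    · rw [h, mul_zero] at ha
      omega
    · rw [h, mul_zero] at hb
      omega

end Pool.Agent.H554R2.Lin
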